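import Pool.Agent.U481.GL.Stm

set_option autoImplicit false

/-!
Project GL, package LIM: from compactly supported functions to all functions (two applications of the
lemma of Fatou).
-/

open MeasureTheory Filter Topology Set
open scoped ENNReal NNReal Real

namespace Pool.Agent.U96.GL.LIM

open Pool.Agent.U481.HW hiding S_suf
open Pool.Agent.U481.GL

/-- Truncation. -/
noncomputable def tr (f : ℝ → ℂ) (n : ℕ) : ℝ → ℂ := (Icc (-(n : ℝ)) n).indicator f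

lemma one_add_sq_ne (x : ℝ) : (((1 + x ^ 2 : ℝ)) : ℂ) ≠ 0 := by
  have : (1 + x ^ 2 : ℝ) ≠ 0 := by positivity
  exact_mod_cast this

lemma tr_div (f : ℝ → ℂ) (n : ℕ) :
    (fun x => tr f n x / ((1 + x ^ 2 : ℝ) : ℂ)) =
      (Icc (-(n : ℝ)) n).indicator (fun x => f x / ((1 + x ^ 2 : ℝ) : ℂ)) := by
  funext x
  by_cases hx : x ∈ Icc (-(n : ℝ)) n
  · simp [tr, hx]
  · simp [tr, hx]

lemma tr_int_div (f : ℝ → ℂ) (hf : Integrable (fun x => f x / ((1 + x ^ 2 : ℝ) : ℂ))) (n : ℕ) :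
    Integrable (fun x => tr f n x / ((1 + x ^ 2 : ℝ) : ℂ)) := by
  rw [tr_div]
  exact hf.indicator measurableSet_Icc

lemma tr_int (f : ℝ → ℂ) (hf : Integrable (fun x => f x / ((1 + x ^ 2 : ℝ) : ℂ))) (n : ℕ) :
    Integrable (tr f n) := by
  unfold tr
  rw [integrable_indicator_iff measurableSet_Icc]
  have h1 : IntegrableOn (fun x => f x / ((1 + x ^ 2 : ℝ) : ℂ)) (Icc (-(n : ℝ)) n) := hf.integrableOn
  have h2 : ContinuousOn (fun x : ℝ => ((1 + x ^ 2 : ℝ) : ℂ)) (Icc (-(n : ℝ)) n) := by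
    apply Continuous.continuousOn
    fun_prop
  have h3 := h1.continuousOn_mul h2 isCompact_Icc
  refine h3.congr_fun (fun x _ => ?_) measurableSet_Icc
  have := one_add_sq_ne x
  simp only
  field_simp

lemma meas_f (f : ℝ → ℂ) (hf : Integrable (fun x => f x / ((1 + x ^ 2 : ℝ) : ℂ))) :
    AEStronglyMeasurable f volume := by
  have h2 : Continuous (fun x : ℝ => ((1 + x ^ 2 : ℝ) : ℂ)) := by fun_prop
  have h3 := h2.aestronglyMeasurable.mul hf.aestronglyMeasurable (μ := volume)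
  refine h3.congr (Eventually.of_forall fun x => ?_)
  have := one_add_sq_ne x
  simp only [Pi.mul_apply]
  field_simp

lemma tr_le (f : ℝ → ℂ) (n : ℕ) (x : ℝ) : ‖tr f n x‖ ≤ ‖f x‖ := by
  by_cases hx : x ∈ Icc (-(n : ℝ)) n
  · simp [tr, hx]
  · simp [tr, hx]

lemma tr_tendsto (f : ℝ → ℂ) (x : ℝ) : Tendsto (fun n : ℕ => tr f n x) atTop (𝓝 (f x)) := by
  obtain ⟨N, hN⟩ := exists_nat_ge |x|
  refine tendsto_atTop_of_eventually_const (i₀ := N) fun n hn => ?_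
  have h1 : |x| ≤ n := hN.trans (by exact_mod_cast hn)
  have h2 : x ∈ Icc (-(n : ℝ)) n := abs_le.1 h1
  simp [tr, h2]

/-- The kernels are bounded by `1 / (x² + y²)`. -/
lemma kz_bd (x y : ℝ) (hy : 0 < y) : |kz x y| ≤ 1 / (x ^ 2 + y ^ 2) := by
  have h0 : 0 < x ^ 2 + y ^ 2 := by positivity
  have hpi : (1 : ℝ) ≤ π := by linarith [Real.pi_gt_three]
  unfold kz
  rw [abs_div, abs_of_pos (show 0 < π * (x ^ 2 + y ^ 2) ^ 2 by positivity), div_le_div_iff₀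
    (by positivity) h0]
  have h1 : |-(2 * x * y)| ≤ x ^ 2 + y ^ 2 := by
    rw [abs_le]
    constructor <;> nlinarith [sq_nonneg (x - y), sq_nonneg (x + y)]
  calc |-(2 * x * y)| * (x ^ 2 + y ^ 2) ≤ (x ^ 2 + y ^ 2) * (x ^ 2 + y ^ 2) := by gcongr
    _ = 1 * (x ^ 2 + y ^ 2) ^ 2 := by ring
    _ ≤ π * (x ^ 2 + y ^ 2) ^ 2 := by gcongr
    _ = 1 * (π * (x ^ 2 + y ^ 2) ^ 2) := by ring

lemma ky_bd (x y : ℝ) (hy : 0 < y) : |ky x y| ≤ 1 / (x ^ 2 + y ^ 2) := by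
  have h0 : 0 < x ^ 2 + y ^ 2 := by positivity
  have hpi : (1 : ℝ) ≤ π := by linarith [Real.pi_gt_three]
  unfold ky
  rw [abs_div, abs_of_pos (show 0 < π * (x ^ 2 + y ^ 2) ^ 2 by positivity), div_le_div_iff₀
    (by positivity) h0]
  have h1 : |x ^ 2 - y ^ 2| ≤ x ^ 2 + y ^ 2 := by
    rw [abs_le]
    constructor <;> nlinarith [sq_nonneg x, sq_nonneg y]
  calc |x ^ 2 - y ^ 2| * (x ^ 2 + y ^ 2) ≤ (x ^ 2 + y ^ 2) * (x ^ 2 + y ^ 2) := by gcongr
    _ = 1 * (x ^ 2 + y ^ 2) ^ 2 := by ring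
    _ ≤ π * (x ^ 2 + y ^ 2) ^ 2 := by gcongr
    _ = 1 * (π * (x ^ 2 + y ^ 2) ^ 2) := by ring

lemma weight_bd (z t y : ℝ) (hy : 0 < y) :
    1 / ((z - t) ^ 2 + y ^ 2) ≤ (2 + (1 + 2 * z ^ 2) / y ^ 2) * (1 / (1 + t ^ 2)) := by
  have h0 : 0 < (z - t) ^ 2 + y ^ 2 := by positivity
  rw [mul_one_div, div_le_div_iff₀ h0 (by positivity)]
  have h1 : (2 + (1 + 2 * z ^ 2) / y ^ 2) * ((z - t) ^ 2 + y ^ 2)
      = 2 * (z - t) ^ 2 + 2 * y ^ 2 + (1 + 2 * z ^ 2) * ((z - t) ^ 2 / y ^ 2) + (1 + 2 * z ^ 2) := by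
    field_simp
    ring
  rw [h1]
  have h2 : 0 ≤ (1 + 2 * z ^ 2) * ((z - t) ^ 2 / y ^ 2) := by positivity
  nlinarith [sq_nonneg (2 * z - t), sq_nonneg y]

/-- Convergence of the integrals against a kernel. -/
lemma conv (k : ℝ → ℝ) (hk : Continuous k) (C : ℝ) (hC : ∀ t, |k t| ≤ C * (1 / (1 + t ^ 2)))
    (f : ℝ → ℂ) (hf : Integrable (fun x => f x / ((1 + x ^ 2 : ℝ) : ℂ))) :
    Tendsto (fun n : ℕ => ∫ t, (k t : ℂ) * tr f n t) atTop (𝓝 (∫ t, (k t : ℂ) * f t)) := by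
  have hk' : Continuous (fun t => (k t : ℂ)) := by fun_prop
  refine tendsto_integral_of_dominated_convergence
    (fun t => C * ‖f t / ((1 + t ^ 2 : ℝ) : ℂ)‖) (fun n => ?_) (hf.norm.const_mul C) (fun n => ?_) ?_
  · exact hk'.aestronglyMeasurable.mul (tr_int f hf n).aestronglyMeasurable
  · refine Eventually.of_forall fun t => ?_
    rw [norm_mul, Complex.norm_real, norm_div, Complex.norm_real, Real.norm_eq_abs, Real.norm_eq_abs,
      abs_of_pos (show 0 < 1 + t ^ 2 by positivity)]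
    calc |k t| * ‖tr f n t‖ ≤ (C * (1 / (1 + t ^ 2))) * ‖f t‖ := by
          apply mul_le_mul (hC t) (tr_le f n t) (norm_nonneg _)
          exact (abs_nonneg _).trans (hC t)
      _ = C * (‖f t‖ / (1 + t ^ 2)) := by ring
  · refine Eventually.of_forall fun t => ?_
    exact (tr_tendsto f t).const_mul _

lemma kz_cont (z y : ℝ) (hy : 0 < y) : Continuous (fun t => kz (z - t) y) := by
  unfold kz
  refine Continuous.div (by fun_prop) (by fun_prop) fun t => ?_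
  positivity

lemma ky_cont (z y : ℝ) (hy : 0 < y) : Continuous (fun t => ky (z - t) y) := by
  unfold ky
  refine Continuous.div (by fun_prop) (by fun_prop) fun t => ?_
  positivity

lemma G2_tendsto (f : ℝ → ℂ) (hf : Integrable (fun x => f x / ((1 + x ^ 2 : ℝ) : ℂ)))
    (q : ℝ × ℝ) (hq : 0 < q.2) :
    Tendsto (fun n : ℕ => G2 (tr f n) q) atTop (𝓝 (G2 f q)) := by
  have h1 : Tendsto (fun n : ℕ => Gz (tr f n) q) atTop (𝓝 (Gz f q)) :=
    conv (fun t => kz (q.1 - t) q.2) (kz_cont q.1 q.2 hq) (2 + (1 + 2 * q.1 ^ 2) / q.2 ^ 2)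
      (fun t => (kz_bd _ _ hq).trans (weight_bd q.1 t q.2 hq)) f hf
  have h2 : Tendsto (fun n : ℕ => Gy (tr f n) q) atTop (𝓝 (Gy f q)) :=
    conv (fun t => ky (q.1 - t) q.2) (ky_cont q.1 q.2 hq) (2 + (1 + 2 * q.1 ^ 2) / q.2 ^ 2)
      (fun t => (ky_bd _ _ hq).trans (weight_bd q.1 t q.2 hq)) f hf
  unfold G2
  exact (ENNReal.Tendsto.pow h1.enorm).add (ENNReal.Tendsto.pow h2.enorm)

/-- The integral inside of `GS`. -/
noncomputable def A (l : ℝ) (G : ℝ × ℝ → ℝ≥0∞) (x : ℝ) : ℝ≥0∞ :=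
  ∫⁻ q in {q : ℝ × ℝ | 0 < q.2}, ENNReal.ofReal ((q.2 / (|x - q.1| + q.2)) ^ l) * G q

lemma meas_half : MeasurableSet {q : ℝ × ℝ | 0 < q.2} :=
  measurableSet_lt measurable_const measurable_snd

lemma meas_ker (l : ℝ) (G : ℝ × ℝ → ℝ≥0∞) (hG : Measurable G) :
    Measurable (fun w : ℝ × (ℝ × ℝ) =>
      ENNReal.ofReal ((w.2.2 / (|w.1 - w.2.1| + w.2.2)) ^ l) * G w.2) := by
  have h1 : Measurable (fun w : ℝ × (ℝ × ℝ) => (w.2.2 / (|w.1 - w.2.1| + w.2.2))) := by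
    have : Measurable (fun w : ℝ × (ℝ × ℝ) => |w.1 - w.2.1|) :=
      (continuous_abs.comp (by fun_prop : Continuous fun w : ℝ × (ℝ × ℝ) => w.1 - w.2.1)).measurable
    fun_prop
  exact ((h1.pow_const l).ennreal_ofReal).mul (hG.comp measurable_snd)

lemma A_meas (l : ℝ) (G : ℝ × ℝ → ℝ≥0∞) (hG : Measurable G) : Measurable (A l G) := by
  unfold A
  exact Measurable.lintegral_prod_right' (ν := volume.restrict {q : ℝ × ℝ | 0 < q.2}) (meas_ker l G hG)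

lemma A_fatou (l : ℝ) (f : ℝ → ℂ) (hf : Integrable (fun x => f x / ((1 + x ^ 2 : ℝ) : ℂ)))
    (hmes : S_mes) (x : ℝ) :
    A l (G2 f) x ≤ liminf (fun n : ℕ => A l (G2 (tr f n)) x) atTop := by
  have h0 : ∀ n : ℕ, Measurable (fun q : ℝ × ℝ =>
      ENNReal.ofReal ((q.2 / (|x - q.1| + q.2)) ^ l) * G2 (tr f n) q) := fun n =>
    (meas_ker l _ (hmes _ (tr_int_div f hf n))).comp (measurable_const.prodMk measurable_id)
  have h1 : A l (G2 f) x = ∫⁻ q in {q : ℝ × ℝ | 0 < q.2},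
      liminf (fun n : ℕ => ENNReal.ofReal ((q.2 / (|x - q.1| + q.2)) ^ l) * G2 (tr f n) q) atTop := by
    unfold A
    refine setLIntegral_congr_fun meas_half fun q hq => ?_
    have h2 := ENNReal.Tendsto.const_mul (a := ENNReal.ofReal ((q.2 / (|x - q.1| + q.2)) ^ l))
      (G2_tendsto f hf q hq) (Or.inr ENNReal.ofReal_ne_top)
    exact h2.liminf_eq.symm
  rw [h1]
  exact lintegral_liminf_le h0

theorem main : S_drv → S_mes → S_cmp → S_suf := by
  intro hdrv hmes hcmp l p hl hl2 hp hp2 U hU hB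
  obtain ⟨C, hC, hmain⟩ := hcmp l p hl hl2 hp hp2 U hU hB
  refine ⟨C, hC, fun f hf _ => ?_⟩
  have hp0 : 0 < p := lt_trans (by positivity) hp
  -- the function of `f`
  have hg : ∀ x, gstar l f x = (A l (G2 f) x) ^ (1 / 2 : ℝ) := by
    intro x
    unfold gstar GS A
    congr 1
    refine setLIntegral_congr_fun meas_half fun q hq => ?_
    rw [hdrv f hf q hq]
  have hmono : ∀ x, Monotone (fun a : ℝ≥0∞ => (a ^ (1 / 2 : ℝ)) ^ p * (U x : ℝ≥0∞)) := by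
    intro x a b hab
    simp only
    gcongr
  have hcont : ∀ x, Continuous (fun a : ℝ≥0∞ => (a ^ (1 / 2 : ℝ)) ^ p * (U x : ℝ≥0∞)) := by
    intro x
    exact (ENNReal.continuous_mul_const (ENNReal.coe_ne_top)).comp
      ((ENNReal.continuous_rpow_const).comp (ENNReal.continuous_rpow_const))
  have hpt : ∀ x, (gstar l f x) ^ p * (U x : ℝ≥0∞) ≤
      liminf (fun n : ℕ => (GS l (G2 (tr f n)) x) ^ p * (U x : ℝ≥0∞)) atTop := by
    intro x
    rw [hg x]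
    refine (hmono x (A_fatou l f hf hmes x)).trans ?_
    have h3 := (hmono x).map_liminf_of_continuousAt (F := (atTop : Filter ℕ))
      (a := fun n : ℕ => A l (G2 (tr f n)) x) ((hcont x).continuousAt)
    exact le_of_eq h3
  have hmeas : ∀ n : ℕ, Measurable (fun x => (GS l (G2 (tr f n)) x) ^ p * (U x : ℝ≥0∞)) := by
    intro n
    have h4 : Measurable (A l (G2 (tr f n))) := A_meas l _ (hmes _ (tr_int_div f hf n))
    exact ((h4.pow_const (1 / 2 : ℝ)).pow_const p).mul hU.1.meas.coe_nnreal_ennreal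
  calc (∫⁻ x, (gstar l f x) ^ p * (U x : ℝ≥0∞))
      ≤ ∫⁻ x, liminf (fun n : ℕ => (GS l (G2 (tr f n)) x) ^ p * (U x : ℝ≥0∞)) atTop :=
        lintegral_mono hpt
    _ ≤ liminf (fun n : ℕ => ∫⁻ x, (GS l (G2 (tr f n)) x) ^ p * (U x : ℝ≥0∞)) atTop :=
        lintegral_liminf_le hmeas
    _ ≤ liminf (fun _ : ℕ => C * ∫⁻ x, ‖f x‖ₑ ^ p * (U x : ℝ≥0∞)) atTop := by
        refine liminf_le_liminf (Eventually.of_forall fun n => ?_)
        refine (hmain (tr f n) (tr_int f hf n) ⟨n, fun x hx => ?_⟩).trans ?_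
        · have : x ∉ Icc (-(n : ℝ)) n := fun h => absurd (abs_le.2 h) (not_le.2 hx)
          simp [tr, this]
        · gcongr
          exact enorm_le_iff_norm_le.2 (tr_le f n _)
    _ = C * ∫⁻ x, ‖f x‖ₑ ^ p * (U x : ℝ≥0∞) := liminf_const _

end Pool.Agent.U96.GL.LIM
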